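import Pool.Agent.H73DW.D45

/-!
# The ideal of `C` in the ring of global functions is finitely generated

The relations between the global functions which generate `J` form a coherent sheaf `K` with
`J K ⊆ K₀ + K₁`, so its first cohomology is that of a sheaf on an infinitesimal neighbourhood of
`C`, and has finite dimension.
-/

set_option autoImplicit false

open LaurentPolynomial

universe u

namespace Pool.Agent.DWC

variable {k : Type u} [Field k] {X : Nbhd k} {n : ℕ}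

/-- The relations between functions. -/
def Rel (h : Fin n → X.B) : Submodule X.B (Fin n → X.B) where
  carrier := {b | ∑ i, b i * h i = 0}
  add_mem' := by
    intro a b ha hb
    simp only [Set.mem_ofPred_eq, Pi.add_apply, add_mul, Finset.sum_add_distrib] at *
    rw [ha, hb, add_zero]
  zero_mem' := by simp
  smul_mem' := by
    intro c b hb
    simp only [Set.mem_ofPred_eq, Pi.smul_apply, smul_eq_mul, mul_assoc] at *
    rw [← Finset.mul_sum, hb, mul_zero]

theorem mem_Rel {h : Fin n → X.B} {b : Fin n → X.B} : b ∈ Rel h ↔ ∑ i, b i * h i = 0 := Iff.rfl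

/-- The open subset of a chart with ring of functions `A`, on which `u` has no zeros. -/
structure IsChart (X : Nbhd k) (A : Subalgebra k X.B) (u : X.Bˣ) : Prop where
  mem : (u : X.B) ∈ A
  loc : ∀ (N : ℕ) (b : X.B), ∃ ν : ℕ, ∃ c ∈ X.I ^ N, (u : X.B) ^ ν * b + c ∈ A
  sat : ∀ (N : ℕ) (b : A), (b : X.B) ∈ X.I ^ N → ∃ ν : ℕ, (⟨u, mem⟩ : A) ^ ν * b ∈ (idl A X.I) ^ N

/-- The sections of `P` over a chart. -/
def secs (A : Subalgebra k X.B) (P : Submodule X.B (Fin n → X.B)) :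
    Submodule k (Fin n → X.B) where
  carrier := {z | z ∈ P ∧ ∀ i, z i ∈ A}
  add_mem' := fun ha hb => ⟨P.add_mem ha.1 hb.1, fun i => A.add_mem (ha.2 i) (hb.2 i)⟩
  zero_mem' := ⟨P.zero_mem, fun _ => A.zero_mem⟩
  smul_mem' := fun c _ hz => ⟨(P.restrictScalars k).smul_mem c hz.1, fun i => A.smul_mem (hz.2 i) c⟩

theorem mem_secs {A : Subalgebra k X.B} {P : Submodule X.B (Fin n → X.B)} {z : Fin n → X.B} :
    z ∈ secs A P ↔ z ∈ P ∧ ∀ i, z i ∈ A := Iff.rfl

theorem secs_mono {A : Subalgebra k X.B} {P P' : Submodule X.B (Fin n → X.B)} (h : P ≤ P') :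
    secs A P ≤ secs A P' := fun _ hz => ⟨h hz.1, hz.2⟩

theorem secs_smul {A : Subalgebra k X.B} {P : Submodule X.B (Fin n → X.B)} {z : Fin n → X.B}
    {a : X.B} (ha : a ∈ A) (hz : z ∈ secs A P) : a • z ∈ secs A P :=
  ⟨P.smul_mem _ hz.1, fun i => A.mul_mem ha (hz.2 i)⟩

theorem mem_smul_top {I : Ideal X.B} {e : Fin n → X.B} (he : ∀ i, e i ∈ I) :
    e ∈ I • (⊤ : Submodule X.B (Fin n → X.B)) := by
  have h1 : e = ∑ i, e i • (Pi.single i (1 : X.B) : Fin n → X.B) := by
    ext j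
    simp [Finset.sum_apply, Pi.single_apply]
  rw [h1]
  exact Submodule.sum_mem _ fun i _ => Submodule.smul_mem_smul (he i) Submodule.mem_top

theorem unit_pow_mem {A : Subalgebra k X.B} {u : X.Bˣ} (hA : IsChart X A u) (t : ℕ) :
    (u : X.B) ^ t ∈ A := A.pow_mem hA.mem t

theorem of_pow_smul {M : Type*} [AddCommGroup M] [Module X.B M] {P : Submodule X.B M} (u : X.Bˣ)
    (t : ℕ) {z : M} (h : (u : X.B) ^ t • z ∈ P) : z ∈ P := by
  have h1 : z = ((u⁻¹ ^ t : X.Bˣ) : X.B) • ((u : X.B) ^ t • z) := by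
    rw [smul_smul]
    have h2 : ((u⁻¹ ^ t : X.Bˣ) : X.B) * (u : X.B) ^ t = 1 := by
      rw [← Units.val_pow_eq_pow_val, ← Units.val_mul, ← mul_pow, inv_mul_cancel, one_pow,
        Units.val_one]
    rw [h2, one_smul]
  rw [h1]
  exact P.smul_mem _ h

section chart

variable {A : Subalgebra k X.B} {u : X.Bˣ} (hA : IsChart X A u)

include hA

theorem loc_all (L : ℕ) (b : Fin n → X.B) : ∃ ν : ℕ, ∃ c : Fin n → X.B, (∀ i, c i ∈ X.I ^ L) ∧
    ∀ i, (u : X.B) ^ ν * b i + c i ∈ A := by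
  choose ν c hc hν using fun i => hA.loc L (b i)
  refine ⟨∑ i, ν i, fun i => (u : X.B) ^ (∑ i, ν i - ν i) * c i,
    fun i => Ideal.mul_mem_left _ _ (hc i), fun i => ?_⟩
  have h1 : ν i ≤ ∑ i, ν i := Finset.single_le_sum (fun _ _ => Nat.zero_le _) (Finset.mem_univ i)
  have h2 : (u : X.B) ^ (∑ i, ν i) * b i + (u : X.B) ^ (∑ i, ν i - ν i) * c i =
      (u : X.B) ^ (∑ i, ν i - ν i) * ((u : X.B) ^ ν i * b i + c i) := by
    rw [mul_add, ← mul_assoc, ← pow_add, Nat.sub_add_cancel h1]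
  rw [h2]
  exact A.mul_mem (unit_pow_mem hA _) (hν i)

/-- The relations on `U₀ ∩ U₁` come from relations on the charts. -/
theorem rel_le [IsNoetherianRing X.B] (hjac : X.I ≤ (⊥ : Ideal X.B).jacobson) {J : Ideal X.B}
    {N : ℕ} (hN : X.I ^ N ≤ J) {h : Fin n → X.B}
    (hh : prt A J = Submodule.span A (Set.range h)) :
    Rel h ≤ Submodule.span X.B (secs A (Rel h) : Set (Fin n → X.B)) := by
  refine Submodule.le_of_le_smul_of_le_jacobson_bot (IsNoetherian.noetherian _) hjac ?_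
  obtain ⟨L, hL⟩ : ∃ L, X.I ^ L • ⊤ ⊓ Rel h ≤ X.I • Rel h := by
    obtain ⟨l, hl⟩ := Ideal.exists_pow_inf_eq_pow_smul X.I (Rel h)
    refine ⟨l + 1, ?_⟩
    rw [hl (l + 1) (by omega), show l + 1 - l = 1 by omega, pow_one]
    exact Submodule.smul_mono le_rfl inf_le_right
  intro b hb
  rw [mem_Rel] at hb
  have hhA : ∀ i, h i ∈ prt A J := fun i => by
    rw [hh]; exact Submodule.subset_span ⟨i, rfl⟩
  obtain ⟨ν, c, hc, ha⟩ := loc_all hA (L + N) b
  have hy : ∑ i, ((u : X.B) ^ ν * b i + c i) * h i = ∑ i, c i * h i := by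
    simp only [add_mul, Finset.sum_add_distrib, mul_assoc]
    rw [← Finset.mul_sum, hb, mul_zero, zero_add]
  have hyA : ∑ i, c i * h i ∈ A := by
    rw [← hy]
    exact A.sum_mem fun i _ => A.mul_mem (ha i) (hhA i).2
  have hyI : ∑ i, c i * h i ∈ X.I ^ (L + N) :=
    Ideal.sum_mem _ fun i _ => Ideal.mul_mem_right _ _ (hc i)
  obtain ⟨μ, hμ⟩ := hA.sat (L + N) ⟨_, hyA⟩ hyI
  have h1 : (u : X.B) ^ μ * ∑ i, c i * h i ∈ Submodule.span A (Set.range h) * prt A X.I ^ L := by
    have h2 : (u : X.B) ^ μ * ∑ i, c i * h i ∈ prt A X.I ^ (L + N) :=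
      mem_prt_pow.2 ⟨_, hμ, rfl⟩
    rw [pow_add, mul_comm (prt A X.I ^ L)] at h2
    have h3 : prt A X.I ^ N ≤ Submodule.span A (Set.range h) := by
      rw [← hh]
      intro y hy
      exact ⟨hN (mem_pow_of_mem_prt_pow hy), mem_of_mem_prt_pow hy⟩
    exact Submodule.smul_mono_left h3 h2
  obtain ⟨d, hd, hyd⟩ := mem_span_mul h1
  have hz : (fun i => (u : X.B) ^ μ * ((u : X.B) ^ ν * b i + c i) - d i) ∈ secs A (Rel h) := by
    refine ⟨?_, fun i => A.sub_mem (A.mul_mem (unit_pow_mem hA μ) (ha i))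
      (mem_of_mem_prt_pow (hd i))⟩
    rw [mem_Rel]
    have h3 : ∑ i, ((u : X.B) ^ μ * ((u : X.B) ^ ν * b i + c i) - d i) * h i =
        (u : X.B) ^ μ * ∑ i, ((u : X.B) ^ ν * b i + c i) * h i - ∑ i, h i * d i := by
      rw [Finset.mul_sum, ← Finset.sum_sub_distrib]
      exact Finset.sum_congr rfl fun i _ => by ring
    rw [h3, hy, hyd, sub_self]
  have he : (fun i => d i - (u : X.B) ^ μ * c i) ∈ X.I • Rel h := by
    refine hL ⟨mem_smul_top fun i => (X.I ^ L).sub_mem (mem_pow_of_mem_prt_pow (hd i))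
      (Ideal.mul_mem_left _ _ (Ideal.pow_le_pow_right (Nat.le_add_right L N) (hc i))), ?_⟩
    show _ ∈ Rel h
    rw [mem_Rel]
    have h3 : ∑ i, (d i - (u : X.B) ^ μ * c i) * h i =
        ∑ i, h i * d i - (u : X.B) ^ μ * ∑ i, c i * h i := by
      rw [Finset.mul_sum, ← Finset.sum_sub_distrib]
      exact Finset.sum_congr rfl fun i _ => by ring
    rw [h3, hyd, sub_self]
  refine of_pow_smul u (μ + ν) ?_
  have h4 : (u : X.B) ^ (μ + ν) • b =
      (fun i => (u : X.B) ^ μ * ((u : X.B) ^ ν * b i + c i) - d i) +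
        fun i => d i - (u : X.B) ^ μ * c i := by
    funext i
    simp only [Pi.smul_apply, Pi.add_apply, smul_eq_mul]
    ring
  rw [h4]
  exact Submodule.add_mem _ (Submodule.mem_sup_left (Submodule.subset_span hz))
    (Submodule.mem_sup_right he)

theorem I_le [IsNoetherianRing X.B] (hjac : X.I ≤ (⊥ : Ideal X.B).jacobson) :
    X.I ≤ Ideal.span {a | a ∈ X.I ∧ a ∈ A} := by
  refine Submodule.le_of_le_smul_of_le_jacobson_bot (IsNoetherian.noetherian _) hjac ?_
  intro b hb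
  obtain ⟨ν, c, hc, h⟩ := hA.loc 2 b
  refine of_pow_smul u ν ?_
  have h1 : (u : X.B) ^ ν • b = ((u : X.B) ^ ν * b + c) - c := by
    rw [smul_eq_mul]; ring
  rw [h1]
  have hc' : c ∈ X.I • X.I := by rwa [smul_eq_mul, ← pow_two]
  refine Submodule.sub_mem _ (Submodule.mem_sup_left (Submodule.subset_span ⟨?_, h⟩))
    (Submodule.mem_sup_right hc')
  exact X.I.add_mem (X.I.mul_mem_left _ hb) (Ideal.pow_le_self two_ne_zero hc)

theorem smul_le_span [IsNoetherianRing X.B] (hjac : X.I ≤ (⊥ : Ideal X.B).jacobson)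
    {P : Submodule X.B (Fin n → X.B)}
    (hP : P ≤ Submodule.span X.B (secs A P : Set (Fin n → X.B))) :
    X.I • P ≤ Submodule.span X.B (secs A (X.I • P) : Set (Fin n → X.B)) := by
  refine (Submodule.smul_mono (I_le hA hjac) hP).trans ?_
  rw [Submodule.span_smul_span, Submodule.span_le]
  intro y hy
  obtain ⟨a, ha, z, hz, rfl⟩ := Set.mem_smul.1 hy
  exact Submodule.subset_span ⟨Submodule.smul_mem_smul ha.1 hz.1, (secs_smul ha.2 hz).2⟩

theorem pow_smul_le_span [IsNoetherianRing X.B] (hjac : X.I ≤ (⊥ : Ideal X.B).jacobson)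
    {P : Submodule X.B (Fin n → X.B)}
    (hP : P ≤ Submodule.span X.B (secs A P : Set (Fin n → X.B))) (i : ℕ) :
    X.I ^ i • P ≤ Submodule.span X.B (secs A (X.I ^ i • P) : Set (Fin n → X.B)) := by
  induction i with
  | zero => simpa using hP
  | succ i ih =>
    rw [pow_succ', ← smul_eq_mul, Submodule.smul_assoc]
    exact smul_le_span hA hjac ih

/-- Sections over `U₀ ∩ U₁` extend to a chart after multiplication by a power of `u`. -/
theorem pole {P : Submodule X.B (Fin n → X.B)}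
    (hP : P ≤ Submodule.span X.B (secs A P : Set (Fin n → X.B))) {e : Fin n → X.B} (he : e ∈ P) :
    ∃ ν : ℕ, ∀ t ≥ ν, ∃ d ∈ secs A P, (u : X.B) ^ t • e - d ∈ X.I • P := by
  have hle : Submodule.span X.B (secs A P : Set (Fin n → X.B)) ≤ P :=
    Submodule.span_le.2 fun z hz => hz.1
  refine Submodule.span_induction (p := fun e _ => ∃ ν : ℕ, ∀ t ≥ ν, ∃ d ∈ secs A P,
    (u : X.B) ^ t • e - d ∈ X.I • P) ?_ ?_ ?_ ?_ (hP he)
  · intro z hz
    exact ⟨0, fun t _ => ⟨_, secs_smul (unit_pow_mem hA t) hz, by rw [sub_self]; exact zero_mem _⟩⟩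
  · exact ⟨0, fun t _ => ⟨0, zero_mem _, by simp⟩⟩
  · rintro x y hx hy ⟨ν, hν⟩ ⟨μ, hμ⟩
    refine ⟨max ν μ, fun t ht => ?_⟩
    obtain ⟨d, hd, h1⟩ := hν t (le_trans (le_max_left _ _) ht)
    obtain ⟨d', hd', h2⟩ := hμ t (le_trans (le_max_right _ _) ht)
    refine ⟨d + d', add_mem hd hd', ?_⟩
    have h3 : (u : X.B) ^ t • (x + y) - (d + d') = ((u : X.B) ^ t • x - d) +
      ((u : X.B) ^ t • y - d') := by rw [smul_add]; abel
    rw [h3]
    exact add_mem h1 h2
  · rintro b x hx ⟨ν, hν⟩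
    obtain ⟨μ, c, hc, h⟩ := hA.loc 1 b
    refine ⟨ν + μ, fun t ht => ?_⟩
    obtain ⟨d, hd, h1⟩ := hν (t - μ) (by omega)
    refine ⟨((u : X.B) ^ μ * b + c) • d, secs_smul h hd, ?_⟩
    have h3 : (u : X.B) ^ t • b • x - ((u : X.B) ^ μ * b + c) • d =
        ((u : X.B) ^ μ * b + c) • ((u : X.B) ^ (t - μ) • x - d) -
          c • ((u : X.B) ^ (t - μ) • x) := by
      have h4 : (u : X.B) ^ t = (u : X.B) ^ μ * (u : X.B) ^ (t - μ) := by
        rw [← pow_add]; congr 1; omega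
      rw [h4, smul_sub, smul_smul, smul_smul, smul_smul]
      rw [sub_right_comm, ← sub_smul]
      congr 2
      ring
    rw [h3]
    refine sub_mem (Submodule.smul_mem _ _ h1) (Submodule.smul_mem_smul ?_
      (P.smul_mem _ (hle hx)))
    rwa [pow_one] at hc

end chart

section two

variable (h0 : IsChart X X.B₀ X.x) (h1 : IsChart X X.B₁ X.w)

include h0 h1

/-- The first cohomology of the coherent sheaf `P / I P` on `C` has finite dimension. -/
theorem step [IsNoetherianRing X.B] {P : Submodule X.B (Fin n → X.B)}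
    (hP0 : P ≤ Submodule.span X.B (secs X.B₀ P : Set (Fin n → X.B)))
    (hP1 : P ≤ Submodule.span X.B (secs X.B₁ P : Set (Fin n → X.B)))
    {Q : Submodule k (Fin n → X.B)} (hQ0 : secs X.B₀ P ≤ Q) (hQ1 : secs X.B₁ P ≤ Q)
    (hQ2 : ∀ z ∈ X.I • P, z ∈ Q) :
    ∃ V : Submodule k (Fin n → X.B), V.FG ∧ (∀ z ∈ V, z ∈ P) ∧ ∀ z ∈ P, z ∈ V ⊔ Q := by
  have one : ∀ e ∈ secs X.B₀ P, ∃ V : Submodule k (Fin n → X.B), V.FG ∧
      V ≤ P.restrictScalars k ∧ ∀ b : X.B, b • e ∈ V ⊔ Q := by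
    intro e he
    obtain ⟨ν, hν⟩ := pole h1 hP1 he.1
    refine ⟨Submodule.span k ((fun t : ℕ => (X.w : X.B) ^ t • e) '' (Set.Iio ν)),
      Submodule.fg_span ((Set.finite_Iio ν).image _), ?_, ?_⟩
    · rw [Submodule.span_le]
      rintro _ ⟨t, -, rfl⟩
      exact P.smul_mem _ he.1
    · set V := Submodule.span k ((fun t : ℕ => (X.w : X.B) ^ t • e) '' (Set.Iio ν)) with hV
      have hx : ∀ t : ℕ, (X.x : X.B) ^ t • e ∈ V ⊔ Q := fun t =>
        Submodule.mem_sup_right (hQ0 (secs_smul (unit_pow_mem h0 t) he))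
      have hw : ∀ t : ℕ, (X.w : X.B) ^ t • e ∈ V ⊔ Q := by
        intro t
        by_cases ht : t < ν
        · exact Submodule.mem_sup_left (Submodule.subset_span ⟨t, ht, rfl⟩)
        · obtain ⟨d, hd, h⟩ := hν t (by omega)
          refine Submodule.mem_sup_right ?_
          have h2 : (X.w : X.B) ^ t • e = d + ((X.w : X.B) ^ t • e - d) := by abel
          rw [h2]
          exact Q.add_mem (hQ1 hd) (hQ2 _ h)
      have hI : ∀ b ∈ X.I, b • e ∈ V ⊔ Q := by
        intro b hb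
        have h2 : b • e ∈ X.I • P := Submodule.smul_mem_smul hb he.1
        exact Submodule.mem_sup_right (hQ2 _ h2)
      have hf : ∀ f : k[T;T⁻¹], ∃ β : X.B, X.res β = f ∧ β • e ∈ V ⊔ Q := by
        intro f
        induction f using LaurentPolynomial.induction_on' with
        | add p q hp hq =>
          obtain ⟨a, ha, ha'⟩ := hp
          obtain ⟨b, hb, hb'⟩ := hq
          exact ⟨a + b, by rw [map_add, ha, hb], by rw [add_smul]; exact (V ⊔ Q).add_mem ha' hb'⟩
        | C_mul_T m a =>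
          obtain ⟨m, rfl | rfl⟩ := m.eq_nat_or_neg
          · refine ⟨a • (X.x : X.B) ^ m, ?_, ?_⟩
            · rw [map_smul, res_x_pow, LaurentPolynomial.smul_eq_C_mul]
            · rw [smul_assoc]
              exact Submodule.smul_mem _ _ (hx m)
          · refine ⟨a • (X.w : X.B) ^ m, ?_, ?_⟩
            · rw [map_smul, res_w_pow, LaurentPolynomial.smul_eq_C_mul]
            · rw [smul_assoc]
              exact Submodule.smul_mem _ _ (hw m)
      intro b
      obtain ⟨β, hβ, hβ'⟩ := hf (X.res b)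
      have h2 : b • e = β • e + (b - β) • e := by rw [← add_smul, add_sub_cancel]
      rw [h2]
      exact (V ⊔ Q).add_mem hβ' (hI _ (Nbhd.mem_I.2 (by rw [map_sub, hβ, sub_self])))
  have hle : Submodule.span X.B (secs X.B₀ P : Set (Fin n → X.B)) ≤ P :=
    Submodule.span_le.2 fun z hz => hz.1
  have hPs : P = Submodule.span X.B (secs X.B₀ P : Set (Fin n → X.B)) := le_antisymm hP0 hle
  obtain ⟨s, hs, hs'⟩ := Submodule.fg_span_iff_fg_span_finset_subset _ |>.1
    (hPs ▸ IsNoetherian.noetherian P)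
  choose V hVfg hVP hV using one
  refine ⟨⨆ e : s, V e (hs e.2), Submodule.fg_iSup _ fun e => hVfg _ _,
    fun z hz => (iSup_le fun e : s => hVP _ (hs e.2)) hz, ?_⟩
  intro z hz
  have hz' : z ∈ Submodule.span X.B (s : Set (Fin n → X.B)) := by
    rw [← hs', ← hPs]; exact hz
  have key : ∀ b : X.B, b • z ∈ (⨆ e : s, V e (hs e.2)) ⊔ Q := by
    refine Submodule.span_induction (p := fun z _ => ∀ b : X.B, b • z ∈
      (⨆ e : s, V e (hs e.2)) ⊔ Q) ?_ ?_ ?_ ?_ hz'
    · intro e he b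
      exact sup_le_sup_right (le_iSup (fun e : s => V e (hs e.2)) ⟨e, he⟩) Q (hV e (hs he) b)
    · intro b
      rw [smul_zero]; exact Submodule.zero_mem _
    · intro x y _ _ hx hy b
      rw [smul_add]; exact Submodule.add_mem _ (hx b) (hy b)
    · intro c x _ hx b
      rw [smul_smul]; exact hx _
  simpa using key 1

omit h0 h1 in
/-- `J K ⊆ K₀ + K₁` -/
theorem koszul (hB : ∀ b : X.B, ∃ b₀ ∈ X.B₀, ∃ b₁ ∈ X.B₁, b = b₀ + b₁) {h : Fin n → X.B}
    (hh : ∀ i, h i ∈ X.B₀ ∧ h i ∈ X.B₁) {J : Ideal X.B} (hJ : J ≤ Ideal.span (Set.range h)) :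
    (J • Rel h).restrictScalars k ≤ secs X.B₀ (Rel h) ⊔ secs X.B₁ (Rel h) := by
  have one : ∀ (l : Fin n), ∀ b ∈ Rel h, h l • b ∈ secs X.B₀ (Rel h) ⊔ secs X.B₁ (Rel h) := by
    intro l b hb
    choose a ha c hc hac using fun i => hB (b i)
    rw [mem_Rel] at hb
    have gen : ∀ (A : Subalgebra k X.B) (a : Fin n → X.B), (∀ i, a i ∈ A) → (∀ i, h i ∈ A) →
        (h l • a - (∑ i, a i * h i) • (Pi.single l (1 : X.B) : Fin n → X.B)) ∈
          secs A (Rel h) := by
      intro A a ha hhA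
      refine ⟨?_, fun i => A.sub_mem (A.mul_mem (hhA l) (ha i)) (A.mul_mem
        (A.sum_mem fun i _ => A.mul_mem (ha i) (hhA i)) ?_)⟩
      · rw [mem_Rel]
        simp only [Pi.sub_apply, Pi.smul_apply, smul_eq_mul, sub_mul, Finset.sum_sub_distrib,
          mul_assoc, ← Finset.mul_sum]
        simp [Pi.single_apply, mul_comm]
      · rw [Pi.single_apply]
        split_ifs
        · exact A.one_mem
        · exact A.zero_mem
    have h2 : h l • b = (h l • a - (∑ i, a i * h i) • (Pi.single l (1 : X.B) : Fin n → X.B)) +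
        (h l • c - (∑ i, c i * h i) • (Pi.single l (1 : X.B) : Fin n → X.B)) := by
      have h3 : ∑ i, a i * h i + ∑ i, c i * h i = 0 := by
        rw [← hb, ← Finset.sum_add_distrib]
        exact Finset.sum_congr rfl fun i _ => by rw [hac i]; ring
      have h4 : b = a + c := funext hac
      have h5 : (h l • a - (∑ i, a i * h i) • (Pi.single l (1 : X.B) : Fin n → X.B)) +
          (h l • c - (∑ i, c i * h i) • (Pi.single l (1 : X.B) : Fin n → X.B)) =
          h l • (a + c) - (∑ i, a i * h i + ∑ i, c i * h i) •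
            (Pi.single l (1 : X.B) : Fin n → X.B) := by
        rw [smul_add, add_smul]; abel
      rw [h5, h3, zero_smul, sub_zero, h4]
    rw [h2]
    exact add_mem (Submodule.mem_sup_left (gen _ a ha fun i => (hh i).1))
      (Submodule.mem_sup_right (gen _ c hc fun i => (hh i).2))
  intro z hz
  refine Submodule.smul_induction_on (p := fun z => z ∈ secs X.B₀ (Rel h) ⊔ secs X.B₁ (Rel h))
    (show z ∈ J • Rel h from hz) ?_ fun x y hx hy => add_mem hx hy
  intro r hr b hb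
  obtain ⟨c, rfl⟩ := (Submodule.mem_span_range_iff_exists_fun X.B).1 (hJ hr)
  rw [Finset.sum_smul]
  refine sum_mem fun l _ => ?_
  have h2 : (c l • h l) • b = h l • (c l • b) := by
    rw [smul_smul, smul_eq_mul, mul_comm]
  rw [h2]
  exact one l _ ((Rel h).smul_mem _ hb)

/-- The first cohomology of the sheaf of relations has finite dimension. -/
theorem finite_rel [IsNoetherianRing X.B] (hjac : X.I ≤ (⊥ : Ideal X.B).jacobson) {J : Ideal X.B}
    {N : ℕ} (hN : X.I ^ N ≤ J) {h : Fin n → X.B}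
    (hh0 : part₀ J = Submodule.span X.B₀ (Set.range h))
    (hh1 : part₁ J = Submodule.span X.B₁ (Set.range h)) (hJ : J ≤ Ideal.span (Set.range h))
    (hB : ∀ b : X.B, ∃ b₀ ∈ X.B₀, ∃ b₁ ∈ X.B₁, b = b₀ + b₁) :
    ∃ V : Submodule k (Fin n → X.B), V.FG ∧ (∀ z ∈ V, z ∈ Rel h) ∧
      (Rel h).restrictScalars k ≤ V ⊔ (secs X.B₀ (Rel h) ⊔ secs X.B₁ (Rel h)) := by
  have r0 := rel_le h0 hjac hN hh0
  have r1 := rel_le h1 hjac hN hh1
  have key : ∀ i : ℕ, ∃ V : Submodule k (Fin n → X.B), V.FG ∧ (∀ z ∈ V, z ∈ Rel h) ∧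
      (Rel h).restrictScalars k ≤ V ⊔ (secs X.B₀ (Rel h) ⊔ secs X.B₁ (Rel h)) ⊔
        (X.I ^ i • Rel h).restrictScalars k := by
    intro i
    induction i with
    | zero =>
      refine ⟨⊥, Submodule.fg_bot, fun z hz => by rw [(Submodule.mem_bot k).1 hz]; exact zero_mem _,
        ?_⟩
      rw [pow_zero, Ideal.one_eq_top, Submodule.top_smul]
      exact le_sup_right
    | succ i ih =>
      obtain ⟨V, hV, hVK, hle⟩ := ih
      have hiK : X.I ^ i • Rel h ≤ Rel h := Submodule.smul_le_right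
      obtain ⟨W, hW, hWP, hle'⟩ := step h0 h1 (pow_smul_le_span h0 hjac r0 i)
        (pow_smul_le_span h1 hjac r1 i)
        (Q := secs X.B₀ (Rel h) ⊔ secs X.B₁ (Rel h) ⊔ (X.I ^ (i + 1) • Rel h).restrictScalars k)
        ((secs_mono hiK).trans (le_sup_left.trans le_sup_left))
        ((secs_mono hiK).trans (le_sup_right.trans le_sup_left)) (fun z hz => by
          rw [← Submodule.smul_assoc, smul_eq_mul, ← pow_succ'] at hz
          exact Submodule.mem_sup_right hz)
      refine ⟨V ⊔ W, hV.sup hW, fun z hz => ?_, hle.trans (sup_le ?_ fun z hz => ?_)⟩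
      · obtain ⟨v, hv, w, hw, rfl⟩ := Submodule.mem_sup.1 hz
        exact (Rel h).add_mem (hVK v hv) (hiK (hWP w hw))
      · exact (sup_le_sup_right le_sup_left _).trans le_sup_left
      · have h2 := hle' z hz
        rw [← sup_assoc] at h2
        have h3 : W ⊔ (secs X.B₀ (Rel h) ⊔ secs X.B₁ (Rel h)) ⊔
            (X.I ^ (i + 1) • Rel h).restrictScalars k ≤
            V ⊔ W ⊔ (secs X.B₀ (Rel h) ⊔ secs X.B₁ (Rel h)) ⊔
              (X.I ^ (i + 1) • Rel h).restrictScalars k :=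
          sup_le_sup_right (sup_le_sup_right le_sup_right _) _
        exact h3 h2
  obtain ⟨V, hV, hVK, hle⟩ := key N
  refine ⟨V, hV, hVK, hle.trans (sup_le le_rfl ?_)⟩
  have h2 : (X.I ^ N • Rel h).restrictScalars k ≤ (J • Rel h).restrictScalars k :=
    fun z hz => Submodule.smul_mono hN le_rfl (show z ∈ X.I ^ N • Rel h from hz)
  have h3 : ∀ i, h i ∈ X.B₀ ∧ h i ∈ X.B₁ := fun i => by
    have a0 : h i ∈ part₀ J := by rw [hh0]; exact Submodule.subset_span ⟨i, rfl⟩
    have a1 : h i ∈ part₁ J := by rw [hh1]; exact Submodule.subset_span ⟨i, rfl⟩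
    exact ⟨a0.2, a1.2⟩
  exact h2.trans ((koszul hB h3 hJ).trans le_sup_right)

end two

/-- The global functions in `J` form a finitely generated ideal of the ring of global functions. -/
theorem fg_of_finite {J : Ideal X.B} {h : Fin n → X.B}
    (hh0 : part₀ J = Submodule.span X.B₀ (Set.range h))
    (hh1 : part₁ J = Submodule.span X.B₁ (Set.range h))
    (hB : ∀ b : X.B, ∃ b₀ ∈ X.B₀, ∃ b₁ ∈ X.B₁, b = b₀ + b₁)
    {V : Submodule k (Fin n → X.B)} (hV : V.FG) (hVK : ∀ z ∈ V, z ∈ Rel h)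
    (hle : (Rel h).restrictScalars k ≤ V ⊔ (secs X.B₀ (Rel h) ⊔ secs X.B₁ (Rel h))) :
    (idl (X.B₀ ⊓ X.B₁) J).FG := by
  obtain ⟨q, v, hv⟩ := Submodule.fg_iff_exists_fin_generating_family.1 hV
  have hvV : ∀ j, v j ∈ V := fun j => by rw [← hv]; exact Submodule.subset_span ⟨j, rfl⟩
  choose α hα γ hγ hαγ using fun j i => hB (v j i)
  have hh : ∀ i, h i ∈ J ∧ h i ∈ X.B₀ ∧ h i ∈ X.B₁ := fun i => by
    have a0 : h i ∈ part₀ J := by rw [hh0]; exact Submodule.subset_span ⟨i, rfl⟩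
    have a1 : h i ∈ part₁ J := by rw [hh1]; exact Submodule.subset_span ⟨i, rfl⟩
    exact ⟨a0.1, a0.2, a1.2⟩
  have hF : ∀ j, ∑ i, α j i * h i = - ∑ i, γ j i * h i := by
    intro j
    have h1 := mem_Rel.1 (hVK _ (hvV j))
    rw [eq_neg_iff_add_eq_zero, ← h1, ← Finset.sum_add_distrib]
    exact Finset.sum_congr rfl fun i _ => by rw [hαγ]; ring
  have hFR : ∀ j, ∑ i, α j i * h i ∈ J ∧ ∑ i, α j i * h i ∈ (X.B₀ ⊓ X.B₁ : Subalgebra k X.B) := by
    intro j
    refine ⟨Ideal.sum_mem _ fun i _ => J.mul_mem_left _ (hh i).1,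
      X.B₀.sum_mem fun i _ => X.B₀.mul_mem (hα j i) (hh i).2.1, ?_⟩
    show ∑ i, α j i * h i ∈ X.B₁
    rw [hF j]
    exact X.B₁.neg_mem (X.B₁.sum_mem fun i _ => X.B₁.mul_mem (hγ j i) (hh i).2.2)
  let G : Set (X.B₀ ⊓ X.B₁ : Subalgebra k X.B) :=
    Set.range (fun i => (⟨h i, (hh i).2⟩ : (X.B₀ ⊓ X.B₁ : Subalgebra k X.B))) ∪
      Set.range (fun j => (⟨_, (hFR j).2⟩ : (X.B₀ ⊓ X.B₁ : Subalgebra k X.B)))
  have hG : idl (X.B₀ ⊓ X.B₁) J = Ideal.span G := by
    refine le_antisymm ?_ (Ideal.span_le.2 ?_)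
    · intro f hf
      have hf' : (f : X.B) ∈ J := hf
      have f0 : (f : X.B) ∈ part₀ J := ⟨hf', f.2.1⟩
      have f1 : (f : X.B) ∈ part₁ J := ⟨hf', f.2.2⟩
      rw [hh0] at f0
      rw [hh1] at f1
      obtain ⟨a, ha⟩ := (Submodule.mem_span_range_iff_exists_fun X.B₀).1 f0
      obtain ⟨c, hc⟩ := (Submodule.mem_span_range_iff_exists_fun X.B₁).1 f1
      have ha' : ∑ i, (a i : X.B) * h i = f := ha
      have hc' : ∑ i, (c i : X.B) * h i = f := hc
      have hb : (fun i => (a i : X.B) - c i) ∈ (Rel h).restrictScalars k := by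
        show _ ∈ Rel h
        rw [mem_Rel]
        simp only [sub_mul, Finset.sum_sub_distrib]
        rw [ha', hc', sub_self]
      obtain ⟨v', hv', d, hd, hvd⟩ := Submodule.mem_sup.1 (hle hb)
      obtain ⟨d₀, hd₀, d₁, hd₁, rfl⟩ := Submodule.mem_sup.1 hd
      rw [← hv] at hv'
      obtain ⟨l, rfl⟩ := (Submodule.mem_span_range_iff_exists_fun k).1 hv'
      have hi : ∀ i, (a i : X.B) - d₀ i - ∑ j, l j • α j i =
          c i + d₁ i + ∑ j, l j • γ j i := by
        intro i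
        have h2 := congrFun hvd i
        simp only [Pi.add_apply, Finset.sum_apply, Pi.smul_apply, hαγ, smul_add,
          Finset.sum_add_distrib] at h2
        linear_combination (-1 : X.B) * h2
      have hρ : ∀ i, (a i : X.B) - d₀ i - ∑ j, l j • α j i ∈
          (X.B₀ ⊓ X.B₁ : Subalgebra k X.B) := by
        intro i
        constructor
        · exact X.B₀.sub_mem (X.B₀.sub_mem (a i).2 (hd₀.2 i))
            (X.B₀.sum_mem fun j _ => X.B₀.smul_mem (hα j i) _)
        · show _ ∈ X.B₁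
          rw [hi]
          exact X.B₁.add_mem (X.B₁.add_mem (c i).2 (hd₁.2 i))
            (X.B₁.sum_mem fun j _ => X.B₁.smul_mem (hγ j i) _)
      have hfeq : f = ∑ i, (⟨_, hρ i⟩ : (X.B₀ ⊓ X.B₁ : Subalgebra k X.B)) *
            (⟨h i, (hh i).2⟩ : (X.B₀ ⊓ X.B₁ : Subalgebra k X.B)) +
          ∑ j, algebraMap k _ (l j) *
            (⟨_, (hFR j).2⟩ : (X.B₀ ⊓ X.B₁ : Subalgebra k X.B)) := by
        apply Subtype.ext
        have h3 := mem_Rel.1 hd₀.1
        push_cast
        rw [← ha']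
        have h4 : ∀ j, (algebraMap k X.B (l j)) * ∑ i, α j i * h i =
            ∑ i, (l j • α j i) * h i := by
          intro j
          rw [Finset.mul_sum]
          exact Finset.sum_congr rfl fun i _ => by rw [Algebra.smul_def]; ring
        simp only [h4]
        rw [Finset.sum_comm]
        simp only [← Finset.sum_mul]
        rw [← Finset.sum_add_distrib, ← sub_eq_zero, ← Finset.sum_sub_distrib, ← h3]
        exact Finset.sum_congr rfl fun i _ => by ring
      rw [hfeq]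
      refine add_mem (sum_mem fun i _ => Ideal.mul_mem_left _ _ (Ideal.subset_span ?_))
        (sum_mem fun j _ => Ideal.mul_mem_left _ _ (Ideal.subset_span ?_))
      · exact .inl ⟨i, rfl⟩
      · exact .inr ⟨j, rfl⟩
    · rintro _ (⟨i, rfl⟩ | ⟨j, rfl⟩)
      · exact (hh i).1
      · exact (hFR j).1
  rw [hG]
  exact Submodule.fg_span ((Set.finite_range _).union (Set.finite_range _))

/-- Global functions which vanish on `C` lie in `J`, as `𝒪_C(-1)` has no global sections. -/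
theorem Chain.mem_of_global {J : Ideal X.B} (hJ : Chain J) {r : X.B} (h0 : r ∈ X.B₀)
    (h1 : r ∈ X.B₁) (hI : r ∈ X.I) : r ∈ J := by
  obtain ⟨L, P, hP0, hPL, hP⟩ := hJ
  have key : ∀ j ≤ L, r ∈ P (L - j) := by
    intro j
    induction j with
    | zero => intro _; rw [Nat.sub_zero, hPL]; exact hI
    | succ j ih =>
      intro hj
      have h2 : L - j = (L - (j + 1)) + 1 := by omega
      have h3 := ih (by omega)
      rw [h2] at h3
      obtain ⟨m, θ, -, -, hker, hr0, hr1⟩ := (hP (L - (j + 1)) (by omega)).2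
      refine (hker ⟨r, h3⟩).1 ?_
      have h4 := (hr0 (θ ⟨r, h3⟩)).1 ⟨⟨r, h3⟩, h0, rfl⟩
      have h5 := (hr1 (θ ⟨r, h3⟩)).1 ⟨⟨r, h3⟩, h1, rfl⟩
      funext i
      ext t
      rcases lt_or_ge t 0 with ht | ht
      · simpa using h4 i t ht
      · simpa using h5 i t (by omega)
  have h := key L le_rfl
  rwa [Nat.sub_self, hP0] at h

theorem le_span_range [IsNoetherianRing X.B] (hjac : X.I ≤ (⊥ : Ideal X.B).jacobson)
    (hx : IsChart X X.B₀ X.x) {J : Ideal X.B} {N : ℕ} (hN : X.I ^ N ≤ J) {h : Fin n → X.B}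
    (hh0 : part₀ J = Submodule.span X.B₀ (Set.range h)) : J ≤ Ideal.span (Set.range h) := by
  refine Submodule.le_of_le_smul_of_le_jacobson_bot (IsNoetherian.noetherian _) hjac ?_
  intro b hb
  obtain ⟨ν, c, hc, hA⟩ := hx.loc (N + 1) b
  refine of_pow_smul X.x ν ?_
  have h1 : (X.x : X.B) ^ ν • b = ((X.x : X.B) ^ ν * b + c) - c := by
    rw [smul_eq_mul]; ring
  rw [h1]
  have hc' : c ∈ X.I • J := by
    rw [pow_succ'] at hc
    exact Submodule.smul_mono le_rfl hN hc
  refine Submodule.sub_mem _ (Submodule.mem_sup_left ?_) (Submodule.mem_sup_right hc')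
  have h2 : (X.x : X.B) ^ ν * b + c ∈ part₀ J :=
    ⟨J.add_mem (J.mul_mem_left _ hb) (Submodule.smul_le_right hc'), hA⟩
  rw [hh0] at h2
  obtain ⟨a, ha⟩ := (Submodule.mem_span_range_iff_exists_fun X.B₀).1 h2
  rw [← ha]
  exact sum_mem fun i _ => Ideal.mul_mem_left _ (a i : X.B) (Ideal.subset_span ⟨i, rfl⟩)

/-- The ideal of `C` in the ring of global functions is finitely generated. -/
theorem fg_global [IsNoetherianRing X.B] (hjac : X.I ≤ (⊥ : Ideal X.B).jacobson)
    (hx : IsChart X X.B₀ X.x) (hw : IsChart X X.B₁ X.w) {J : Ideal X.B} (hJ : Chain J) {N : ℕ}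
    (hN : X.I ^ N ≤ J) {s : Finset X.B}
    (hs0 : part₀ J = Submodule.span X.B₀ (s : Set X.B))
    (hs1 : part₁ J = Submodule.span X.B₁ (s : Set X.B))
    (hB : ∀ b : X.B, ∃ b₀ ∈ X.B₀, ∃ b₁ ∈ X.B₁, b = b₀ + b₁) :
    (idl (X.B₀ ⊓ X.B₁) X.I).FG := by
  let h : Fin s.card → X.B := fun i => (s.equivFin.symm i : X.B)
  have hr : Set.range h = (s : Set X.B) := by
    ext b
    constructor
    · rintro ⟨i, rfl⟩
      exact (s.equivFin.symm i).2
    · intro hb
      exact ⟨s.equivFin ⟨b, hb⟩, by simp [h]⟩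
  rw [← hr] at hs0 hs1
  obtain ⟨V, hV, hVK, hle⟩ := finite_rel hx hw hjac hN hs0 hs1
    (le_span_range hjac hx hN hs0) hB
  have h1 := fg_of_finite hs0 hs1 hB hV hVK hle
  have h2 : idl (X.B₀ ⊓ X.B₁) X.I = idl (X.B₀ ⊓ X.B₁) J := by
    apply le_antisymm
    · intro r hr
      exact hJ.mem_of_global r.2.1 r.2.2 hr
    · intro r hr
      have h3 : J ≤ X.I := by
        obtain ⟨L, P, hP0, hPL, hP⟩ := hJ
        have key : ∀ j ≤ L, P 0 ≤ P j := by
          intro j
          induction j with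
          | zero => intro _; exact le_rfl
          | succ j ih => intro hj; exact (ih (by omega)).trans (hP j (by omega)).1
        rw [← hP0, ← hPL]
        exact key L le_rfl
      exact h3 hr
  rw [h2]
  exact h1

end Pool.Agent.DWC
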