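import Pool.Agent.DWX.Contract

/-!
# The ring of global functions is local
-/

set_option autoImplicit false

open LaurentPolynomial

universe u

namespace Pool.Agent.DWC

variable {k : Type u} [Field k] {X : Nbhd k}

/-- Global functions are constant on `C`. -/
theorem residue_R : ∀ r ∈ X.R, ∃ a : k, X.res r = C a := by
  rintro r ⟨h0, h1⟩
  have h0' := X.res₀ r h0
  have h1' := X.res₁ r h1
  refine ⟨(X.res r).coeff 0, ?_⟩
  have h2 : (C ((X.res r).coeff 0) : k[T;T⁻¹]) = C ((X.res r).coeff 0) * T 0 := by simp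
  rw [h2, ← single_eq_C_mul_T]
  ext i
  rw [AddMonoidAlgebra.coeff_single, Finsupp.single_apply]
  by_cases hi : i = 0
  · subst hi; simp
  · rw [if_neg (Ne.symm hi)]
    rcases lt_or_gt_of_ne hi with h | h
    · exact h0' i h
    · exact h1' i h

/-- A function whose restriction to `C` is a nonzero constant has no zeros. -/
theorem exists_inv {A : Subalgebra k X.B}
    (hc : IsAdicComplete (X.I.comap (algebraMap A X.B)) A) {r : X.B} (hr : r ∈ A) {a : k}
    (ha : a ≠ 0) (hra : X.res r = C a) : ∃ s ∈ A, r * s = 1 := by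
  have := hc
  have h1 : (algebraMap k A a⁻¹ * ⟨r, hr⟩ - 1 : A) ∈ X.I.comap (algebraMap A X.B) := by
    rw [Ideal.mem_comap, Nbhd.mem_I]
    have h2 : algebraMap A X.B (algebraMap k A a⁻¹ * ⟨r, hr⟩ - 1) =
      algebraMap k X.B a⁻¹ * r - 1 := rfl
    rw [h2, map_sub, map_mul, AlgHom.commutes, hra, map_one, sub_eq_zero]
    have h3 : algebraMap k k[T;T⁻¹] a⁻¹ = C a⁻¹ := rfl
    rw [h3, ← map_mul, inv_mul_cancel₀ ha, map_one]
  have h2 := IsAdicComplete.le_jacobson_bot (X.I.comap (algebraMap A X.B)) h1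
  rw [Ideal.mem_jacobson_bot] at h2
  have h3 := h2 1
  rw [mul_one, sub_add_cancel] at h3
  obtain ⟨s, hs⟩ := (isUnit_of_mul_isUnit_right h3).exists_right_inv
  exact ⟨s, s.2, congrArg Subtype.val hs⟩

theorem isUnit_R (hX : X.Formal) {r : X.R} {a : k} (ha : a ≠ 0)
    (hra : X.res (r : X.B) = C a) : IsUnit r := by
  obtain ⟨s, hs, h⟩ := exists_inv hX.complete₀ r.2.1 ha hra
  obtain ⟨t, ht, h'⟩ := exists_inv hX.complete₁ r.2.2 ha hra
  have hst : s = t := by
    calc s = s * ((r : X.B) * t) := by rw [h', mul_one]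
      _ = ((r : X.B) * s) * t := by ring
      _ = t := by rw [h, one_mul]
  refine IsUnit.of_mul_eq_one (⟨s, hs, hst ▸ ht⟩ : X.R) ?_
  exact Subtype.ext h

/-- The ring of global functions is local. -/
theorem isLocalRing_R (hX : X.Formal) : IsLocalRing X.R := by
  have hnt : Nontrivial X.R := by
    refine ⟨⟨0, 1, fun h => ?_⟩⟩
    have h1 : (0 : X.B) = 1 := congrArg Subtype.val h
    have h2 := congrArg X.res h1
    rw [map_zero, map_one] at h2
    exact zero_ne_one h2
  refine IsLocalRing.of_isUnit_or_isUnit_one_sub_self fun r => ?_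
  obtain ⟨a, ha⟩ := residue_R (r : X.B) r.2
  by_cases h0 : a = 0
  · right
    refine isUnit_R hX one_ne_zero (r := 1 - r) ?_
    have h2 : ((1 - r : X.R) : X.B) = 1 - r := rfl
    rw [h2, map_sub, map_one, ha, h0, map_zero, sub_zero, map_one]
  · exact .inl (isUnit_R hX h0 ha)

end Pool.Agent.DWC
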