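import Pool.Agent.H31DW.Step3

/-!
# Completeness and global functions

Steps D4 and D5: in a formal neighbourhood the decompositions of the powers of `J` give
`B = B₀ + B₁` and a finite set of global functions which generates `J` on both charts.
-/

set_option autoImplicit false

open LaurentPolynomial

universe u

namespace Pool.Agent.DWC

variable {k : Type u} [Field k] {X : Nbhd k}

/-! ### One chart -/

/-- The sections of an ideal sheaf over a chart with ring of functions `A`. -/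
def prt (A : Subalgebra k X.B) (J : Ideal X.B) : Submodule A X.B where
  carrier := {b | b ∈ J ∧ b ∈ A}
  add_mem' := fun ha hb => ⟨J.add_mem ha.1 hb.1, A.add_mem ha.2 hb.2⟩
  zero_mem' := ⟨J.zero_mem, A.zero_mem⟩
  smul_mem' := fun c b hb => by
    refine ⟨?_, ?_⟩
    · rw [Algebra.smul_def]; exact J.mul_mem_left _ hb.1
    · rw [Algebra.smul_def]; exact A.mul_mem c.2 hb.2

theorem part₀_eq (J : Ideal X.B) : part₀ J = prt X.B₀ J := rfl

theorem part₁_eq (J : Ideal X.B) : part₁ J = prt X.B₁ J := rfl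

section chart

variable {A : Subalgebra k X.B} {J J' : Ideal X.B}

theorem mem_prt {b : X.B} : b ∈ prt A J ↔ b ∈ J ∧ b ∈ A := Iff.rfl

theorem prt_mono (h : J ≤ J') : prt A J ≤ prt A J' := fun _ hb => ⟨h hb.1, hb.2⟩

/-- The ideal of an ideal sheaf on a chart. -/
noncomputable abbrev idl (A : Subalgebra k X.B) (J : Ideal X.B) : Ideal A :=
  J.comap (algebraMap A X.B)

theorem prt_eq_map : prt A J = Submodule.map (Algebra.ofId A X.B).toLinearMap (idl A J) := by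
  ext b
  rw [Submodule.mem_map]
  constructor
  · intro hb
    exact ⟨⟨b, hb.2⟩, hb.1, rfl⟩
  · rintro ⟨z, hz, rfl⟩
    exact ⟨hz, z.2⟩

theorem mem_prt_pow {m : ℕ} {b : X.B} :
    b ∈ prt A J ^ m ↔ ∃ z : A, z ∈ idl A J ^ m ∧ (z : X.B) = b := by
  rw [prt_eq_map, ← Submodule.map_pow, Submodule.mem_map]
  rfl

theorem mem_of_mem_prt_pow {m : ℕ} {b : X.B} (hb : b ∈ prt A J ^ m) : b ∈ A := by
  obtain ⟨z, -, rfl⟩ := mem_prt_pow.1 hb
  exact z.2

theorem mem_pow_of_mem_prt_pow {m : ℕ} {b : X.B} (hb : b ∈ prt A J ^ m) : b ∈ J ^ m := by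
  obtain ⟨z, hz, rfl⟩ := mem_prt_pow.1 hb
  have h1 : algebraMap A X.B z ∈ ((idl A J) ^ m).map (algebraMap A X.B) :=
    Ideal.mem_map_of_mem _ hz
  rw [Ideal.map_pow] at h1
  exact Ideal.pow_right_mono Ideal.map_comap_le m h1

theorem prt_pow_mono (h : J ≤ J') {m n : ℕ} (hmn : m ≤ n) {b : X.B} (hb : b ∈ prt A J ^ n) :
    b ∈ prt A J' ^ m := by
  obtain ⟨z, hz, rfl⟩ := mem_prt_pow.1 hb
  exact mem_prt_pow.2 ⟨z, Ideal.pow_right_mono (Ideal.comap_mono h) m (Ideal.pow_le_pow_right hmn hz), rfl⟩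

/-- convergence of series -/
theorem conv (hc : IsAdicComplete (idl A J) A) (a : ℕ → X.B) (ha : ∀ i, a i ∈ prt A J ^ i) :
    ∃ s ∈ A, ∀ m, s - ∑ i ∈ Finset.range m, a i ∈ J ^ m := by
  choose z hz hza using fun i => mem_prt_pow.1 (ha i)
  have hf : ∀ {m n : ℕ}, m ≤ n → (∑ i ∈ Finset.range m, z i) ≡ (∑ i ∈ Finset.range n, z i)
      [SMOD (idl A J ^ m • ⊤ : Submodule A A)] := by
    intro m n hmn
    rw [SModEq.sub_mem, smul_eq_mul, Ideal.mul_top, ← neg_sub, neg_mem_iff,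
      ← Finset.sum_Ico_eq_sub _ hmn]
    refine Ideal.sum_mem _ fun i hi => ?_
    exact Ideal.pow_le_pow_right (Finset.mem_Ico.1 hi).1 (hz i)
  obtain ⟨L, hL⟩ := hc.toIsPrecomplete.prec hf
  refine ⟨L, L.2, fun m => ?_⟩
  have h1 := hL m
  rw [SModEq.sub_mem, smul_eq_mul, Ideal.mul_top, ← neg_sub, neg_mem_iff] at h1
  have h2 : ((L - ∑ i ∈ Finset.range m, z i : A) : X.B) ∈ prt A J ^ m := mem_prt_pow.2 ⟨_, h1, rfl⟩
  have h3 := mem_pow_of_mem_prt_pow h2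
  simpa [hza] using h3

theorem mem_span_mul {r : ℕ} {g : Fin r → X.B} {N : Submodule A X.B} {y : X.B}
    (hy : y ∈ Submodule.span A (Set.range g) * N) :
    ∃ d : Fin r → X.B, (∀ l, d l ∈ N) ∧ y = ∑ l, g l * d l := by
  refine Submodule.mul_induction_on hy ?_ ?_
  · intro p hp q hq
    obtain ⟨c, rfl⟩ := (Submodule.mem_span_range_iff_exists_fun A).1 hp
    refine ⟨fun l => c l • q, fun l => N.smul_mem _ hq, ?_⟩
    rw [Finset.sum_mul]
    refine Finset.sum_congr rfl fun l _ => ?_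
    show (algebraMap A X.B (c l) * g l) * q = g l * (algebraMap A X.B (c l) * q)
    ring
  · rintro y z ⟨d, hd, rfl⟩ ⟨d', hd', rfl⟩
    exact ⟨fun l => d l + d' l, fun l => N.add_mem (hd l) (hd' l), by
      rw [← Finset.sum_add_distrib]
      exact Finset.sum_congr rfl fun l _ => by ring⟩

/-- A series with terms in the powers of `J` from the second one on converges in `I J`. -/
theorem limit {I : Ideal X.B} (hJI : J ≤ I) (hc : IsAdicComplete (idl A I) A)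
    (hfg : (prt A J).FG) (a : ℕ → X.B) (ha : ∀ i, a i ∈ prt A J ^ (i + 2)) :
    ∃ s ∈ prt A I * prt A J, ∀ m, s - ∑ i ∈ Finset.range m, a i ∈ I ^ m := by
  obtain ⟨r, g, hg⟩ := Submodule.fg_iff_exists_fin_generating_family.1 hfg
  have h1 : ∀ i, ∃ d : Fin r → X.B, (∀ l, d l ∈ prt A J ^ (i + 1)) ∧ a i = ∑ l, g l * d l := by
    intro i
    refine mem_span_mul ?_
    rw [hg, ← pow_succ']
    exact ha i
  choose d hd hda using h1
  have h2 : ∀ l, ∃ s ∈ A, ∀ m, s - ∑ i ∈ Finset.range m, d i l ∈ I ^ m := fun l =>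
    conv hc (fun i => d i l) fun i => prt_pow_mono hJI (Nat.le_succ i) (hd i l)
  choose D hDA hD using h2
  have hDI : ∀ l, D l ∈ I := by
    intro l
    have h3 := hD l 1
    rw [Finset.sum_range_one, pow_one] at h3
    have h4 : d 0 l ∈ I := by
      have h5 := mem_pow_of_mem_prt_pow (hd 0 l)
      rw [zero_add, pow_one] at h5
      exact hJI h5
    simpa using I.add_mem h3 h4
  refine ⟨∑ l, g l * D l, ?_, fun m => ?_⟩
  · refine Submodule.sum_mem _ fun l _ => ?_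
    rw [mul_comm (g l)]
    refine Submodule.mul_mem_mul ⟨hDI l, hDA l⟩ ?_
    rw [← hg]
    exact Submodule.subset_span ⟨l, rfl⟩
  · have h3 : ∑ l, g l * D l - ∑ i ∈ Finset.range m, a i =
        ∑ l, g l * (D l - ∑ i ∈ Finset.range m, d i l) := by
      simp only [hda, mul_sub, Finset.sum_sub_distrib, Finset.mul_sum]
      congr 1
      exact Finset.sum_comm
    rw [h3]
    exact Ideal.sum_mem _ fun l _ => Ideal.mul_mem_left _ _ (hD l m)

end chart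

/-- Nakayama's lemma on one chart. -/
theorem nak {A : Subalgebra k X.B} {I J : Ideal X.B} (hc : IsAdicComplete (idl A I) A)
    (hfg : (prt A J).FG) {N : Submodule A X.B} (h : prt A J ≤ N ⊔ prt A I * prt A J) :
    prt A J ≤ N := by
  have := hc
  refine Submodule.le_of_le_smul_of_le_jacobson_bot hfg
    (IsAdicComplete.le_jacobson_bot (idl A I)) (h.trans (sup_le_sup_left ?_ N))
  rw [Submodule.mul_le]
  intro a ha b hb
  have h1 : a * b = (⟨a, ha.2⟩ : A) • b := rfl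
  rw [h1]
  exact Submodule.smul_mem_smul ha.1 hb

theorem prt_fg {A : Subalgebra k X.B} (hn : IsNoetherianRing A) (J : Ideal X.B) :
    (prt A J).FG := by
  rw [prt_eq_map]
  have h : (idl A J).FG := hn.noetherian _
  exact Submodule.FG.map _ h

/-! ### Two charts -/

section two

variable {J : Ideal X.B}

/-- telescoping -/
theorem tele (hD3 : ∀ m, ∀ f ∈ J ^ m, Dec (part₀ J ^ m) (part₁ J ^ m) (J ^ (m + 1)) f)
    (m : ℕ) {f : X.B} (hf : f ∈ J ^ m) :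
    ∃ a c : ℕ → X.B, (∀ i, a i ∈ part₀ J ^ (i + m)) ∧ (∀ i, c i ∈ part₁ J ^ (i + m)) ∧
      ∀ n, f - ∑ i ∈ Finset.range n, a i - ∑ i ∈ Finset.range n, c i ∈ J ^ (n + m) := by
  have step : ∀ (m : ℕ) (g : X.B), ∃ a c d : X.B, g ∈ J ^ m →
      a ∈ part₀ J ^ m ∧ c ∈ part₁ J ^ m ∧ d ∈ J ^ (m + 1) ∧ g = a + c + d := by
    intro m g
    by_cases hg : g ∈ J ^ m
    · obtain ⟨a, ha, c, hc, d, hd, h⟩ := hD3 m g hg
      exact ⟨a, c, d, fun _ => ⟨ha, hc, hd, h⟩⟩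
    · exact ⟨0, 0, 0, fun h => absurd h hg⟩
  choose A C D h using step
  let r : ℕ → X.B := fun n => Nat.rec f (fun i y => D (i + m) y) n
  have hr0 : r 0 = f := rfl
  have hr1 : ∀ i, r (i + 1) = D (i + m) (r i) := fun i => rfl
  have hr : ∀ i, r i ∈ J ^ (i + m) := by
    intro i
    induction i with
    | zero => rw [zero_add]; exact hf
    | succ i ih =>
      rw [hr1, show i + 1 + m = i + m + 1 by omega]
      exact (h _ _ ih).2.2.1
  refine ⟨fun i => A (i + m) (r i), fun i => C (i + m) (r i), fun i => (h _ _ (hr i)).1,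
    fun i => (h _ _ (hr i)).2.1, fun n => ?_⟩
  have h2 : f - ∑ i ∈ Finset.range n, A (i + m) (r i) - ∑ i ∈ Finset.range n, C (i + m) (r i) =
      r n := by
    induction n with
    | zero => simp [hr0]
    | succ n ih =>
      rw [Finset.sum_range_succ, Finset.sum_range_succ, hr1]
      have h3 := (h _ _ (hr n)).2.2.2
      have h4 : f - (∑ i ∈ Finset.range n, A (i + m) (r i) + A (n + m) (r n)) -
          (∑ i ∈ Finset.range n, C (i + m) (r i) + C (n + m) (r n)) =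
          (f - ∑ i ∈ Finset.range n, A (i + m) (r i) - ∑ i ∈ Finset.range n, C (i + m) (r i)) -
            A (n + m) (r n) - C (n + m) (r n) := by ring
      rw [h4, ih]
      linear_combination h3
  rw [h2]
  exact hr n

variable (hJI : J ≤ X.I) (haus : ∀ b : X.B, (∀ m : ℕ, b ∈ X.I ^ m) → b = 0)
  (c₀ : IsAdicComplete (idl X.B₀ X.I) X.B₀) (c₁ : IsAdicComplete (idl X.B₁ X.I) X.B₁)
  (hD3 : ∀ m, ∀ f ∈ J ^ m, Dec (part₀ J ^ m) (part₁ J ^ m) (J ^ (m + 1)) f)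

include hJI haus c₀ c₁ hD3

/-- `H¹(X, 𝒪) = 0` -/
theorem eq_add (b : X.B) : ∃ b₀ ∈ X.B₀, ∃ b₁ ∈ X.B₁, b = b₀ + b₁ := by
  obtain ⟨a, c, ha, hc, h⟩ := tele hD3 0 (f := b) (by simp)
  obtain ⟨s, hs, hs'⟩ := conv c₀ a fun i => prt_pow_mono hJI le_rfl (ha i)
  obtain ⟨t, ht, ht'⟩ := conv c₁ c fun i => prt_pow_mono hJI le_rfl (hc i)
  refine ⟨s, hs, t, ht, sub_eq_zero.1 (haus _ fun m => ?_)⟩
  have h1 := Ideal.pow_right_mono hJI _ (h m)
  have h2 := (X.I ^ m).sub_mem ((X.I ^ m).sub_mem h1 (hs' m)) (ht' m)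
  have h3 : b - (s + t) = b - ∑ i ∈ Finset.range m, a i - ∑ i ∈ Finset.range m, c i -
      (s - ∑ i ∈ Finset.range m, a i) - (t - ∑ i ∈ Finset.range m, c i) := by ring
  rw [h3]
  exact h2

/-- `I J = I₀ J₀ + I₁ J₁` -/
theorem mul_eq_add (fg₀ : (part₀ J).FG) (fg₁ : (part₁ J).FG)
    (hD1 : ∀ f ∈ X.I * J, Dec (part₀ X.I * part₀ J) (part₁ X.I * part₁ J) (J * J) f)
    {f : X.B} (hf : f ∈ X.I * J) :
    ∃ a ∈ part₀ X.I * part₀ J, ∃ c ∈ part₁ X.I * part₁ J, f = a + c := by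
  obtain ⟨a', ha', c', hc', d, hd, h0⟩ := hD1 f hf
  rw [← pow_two] at hd
  obtain ⟨a, c, ha, hc, h⟩ := tele hD3 2 hd
  obtain ⟨s, hs, hs'⟩ := limit hJI c₀ fg₀ a ha
  obtain ⟨t, ht, ht'⟩ := limit hJI c₁ fg₁ c hc
  refine ⟨a' + s, Submodule.add_mem _ ha' hs, c' + t, Submodule.add_mem _ hc' ht,
    sub_eq_zero.1 (haus _ fun m => ?_)⟩
  have h1 : d - ∑ i ∈ Finset.range m, a i - ∑ i ∈ Finset.range m, c i ∈ X.I ^ m :=
    Ideal.pow_right_mono hJI _ (Ideal.pow_le_pow_right (Nat.le_add_right m 2) (h m))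
  have h2 := (X.I ^ m).sub_mem ((X.I ^ m).sub_mem h1 (hs' m)) (ht' m)
  have h3 : f - (a' + s + (c' + t)) = d - ∑ i ∈ Finset.range m, a i - ∑ i ∈ Finset.range m, c i -
      (s - ∑ i ∈ Finset.range m, a i) - (t - ∑ i ∈ Finset.range m, c i) := by
    rw [h0]; ring
  rw [h3]
  exact h2

end two

/-- The global functions in `J`. -/
def glob (J : Ideal X.B) : Set X.B := {g | g ∈ J ∧ g ∈ X.B₀ ∧ g ∈ X.B₁}

theorem eps_mem : (X.x : X.B) * X.w - 1 ∈ X.I := by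
  rw [Nbhd.mem_I, map_sub, map_mul, X.res_x, X.res_w, map_one, ← T_add]
  simp

section gen

variable {J : Ideal X.B} (hP : NonNeg J (part₀ J) (part₁ J))
  (hIJ : ∀ f ∈ X.I * J, ∃ a ∈ part₀ X.I * part₀ J, ∃ c ∈ part₁ X.I * part₁ J, f = a + c)

include hP hIJ

theorem gen₀ (n : ℕ) : ∀ a ∈ part₀ J, (∃ δ ∈ X.I * J, (X.w : X.B) ^ n * a + δ ∈ part₁ J) →
    a ∈ Submodule.span X.B₀ (glob J) ⊔ part₀ X.I * part₀ J := by
  have zero : ∀ a ∈ part₀ J, (∃ δ ∈ X.I * J, a + δ ∈ part₁ J) →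
      a ∈ Submodule.span X.B₀ (glob J) ⊔ part₀ X.I * part₀ J := by
    rintro a ha ⟨δ, hδ, hb⟩
    obtain ⟨y, hy, z, hz, rfl⟩ := hIJ δ hδ
    have hy' : y ∈ part₀ J := part₀_mul_le hy
    have hz' : z ∈ part₁ J := part₁_mul_le hz
    have hg : a + y ∈ glob J := by
      refine ⟨J.add_mem ha.1 hy'.1, X.B₀.add_mem ha.2 hy'.2, ?_⟩
      have h1 := X.B₁.sub_mem hb.2 hz'.2
      rwa [show a + (y + z) - z = a + y by ring] at h1
    have h2 : a = (a + y) - y := by ring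
    rw [h2]
    exact Submodule.sub_mem _ (Submodule.mem_sup_left (Submodule.subset_span hg))
      (Submodule.mem_sup_right hy)
  induction n with
  | zero =>
    rintro a ha ⟨δ, hδ, hb⟩
    exact zero a ha ⟨δ, hδ, by simpa using hb⟩
  | succ n ih =>
    rintro a ha ⟨δ, hδ, hb⟩
    have hx : (X.x : X.B) * ((X.x⁻¹ : X.Bˣ) : X.B) = 1 := X.x.mul_inv
    set v : X.B := ((X.x⁻¹ : X.Bˣ) : X.B) with hv
    set ε : X.B := (X.x : X.B) * X.w - 1 with hε
    have hεI : ε ∈ X.I := eps_mem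
    obtain ⟨a', ha', c, hc, δ', hδ', h⟩ := hP (v * a) (J.mul_mem_left _ ha.1)
    have h1 : a - X.x * a' ∈ part₀ J :=
      Submodule.sub_mem _ ha (mul_mem₀ X.x_mem ha')
    have h2 : a - X.x * a' + -(ε * c + X.x * δ') = c := by
      have h3 : (X.x : X.B) * (v * a) = X.x * (a' + X.w * c + δ') := by rw [h]
      rw [← mul_assoc, hx, one_mul] at h3
      rw [h3, hε]
      ring
    have h4 : -(ε * c + X.x * δ') ∈ X.I * J :=
      (X.I * J).neg_mem ((X.I * J).add_mem (Ideal.mul_mem_mul hεI hc.1)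
        ((X.I * J).mul_mem_left _ hδ'))
    have h5 := zero _ h1 ⟨_, h4, by rw [h2]; exact hc⟩
    have h6 := ih a' ha' ⟨δ + (X.w ^ n * v * (ε * a) + X.w ^ n * δ'),
      (X.I * J).add_mem hδ ((X.I * J).add_mem ((X.I * J).mul_mem_left _
        (Ideal.mul_mem_mul hεI ha.1)) ((X.I * J).mul_mem_left _ hδ')), by
      have h7 : (X.w : X.B) ^ n * a' + (δ + (X.w ^ n * v * (ε * a) + X.w ^ n * δ')) =
          (X.w ^ (n + 1) * a + δ) - X.w ^ (n + 1) * c := by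
        have h8 : a' = v * a - X.w * c - δ' := by rw [h]; ring
        rw [h8, hε]
        linear_combination (X.w : X.B) ^ (n + 1) * a * hx
      rw [h7]
      exact Submodule.sub_mem _ hb (mul_mem₁ (X.B₁.pow_mem X.w_mem _) hc)⟩
    have h9 : a = (a - X.x * a') + X.x * a' := by ring
    rw [h9]
    exact Submodule.add_mem _ h5 (mul_mem₀ X.x_mem h6)

theorem gen₁ (n : ℕ) : ∀ c ∈ part₁ J, (∃ δ ∈ X.I * J, (X.x : X.B) ^ n * c + δ ∈ part₀ J) →
    c ∈ Submodule.span X.B₁ (glob J) ⊔ part₁ X.I * part₁ J := by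
  have zero : ∀ c ∈ part₁ J, (∃ δ ∈ X.I * J, c + δ ∈ part₀ J) →
      c ∈ Submodule.span X.B₁ (glob J) ⊔ part₁ X.I * part₁ J := by
    rintro c hc ⟨δ, hδ, hb⟩
    obtain ⟨y, hy, z, hz, rfl⟩ := hIJ δ hδ
    have hy' : y ∈ part₀ J := part₀_mul_le hy
    have hz' : z ∈ part₁ J := part₁_mul_le hz
    have hg : c + z ∈ glob J := by
      refine ⟨J.add_mem hc.1 hz'.1, ?_, X.B₁.add_mem hc.2 hz'.2⟩
      have h1 := X.B₀.sub_mem hb.2 hy'.2
      rwa [show c + (y + z) - y = c + z by ring] at h1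
    have h2 : c = (c + z) - z := by ring
    rw [h2]
    exact Submodule.sub_mem _ (Submodule.mem_sup_left (Submodule.subset_span hg))
      (Submodule.mem_sup_right hz)
  induction n with
  | zero =>
    rintro c hc ⟨δ, hδ, hb⟩
    exact zero c hc ⟨δ, hδ, by simpa using hb⟩
  | succ n ih =>
    rintro c hc ⟨δ, hδ, hb⟩
    have hw : (X.w : X.B) * ((X.w⁻¹ : X.Bˣ) : X.B) = 1 := X.w.mul_inv
    set v : X.B := ((X.w⁻¹ : X.Bˣ) : X.B) with hv
    set ε : X.B := (X.x : X.B) * X.w - 1 with hε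
    have hεI : ε ∈ X.I := eps_mem
    obtain ⟨a, ha, c', hc', δ', hδ', h⟩ := hP c hc.1
    have h1 : c - X.w * c' ∈ part₁ J :=
      Submodule.sub_mem _ hc (mul_mem₁ X.w_mem hc')
    have h5 := zero _ h1 ⟨-δ', (X.I * J).neg_mem hδ', by
      rw [show c - X.w * c' + -δ' = a by rw [h]; ring]; exact ha⟩
    have h6 := ih c' hc' ⟨δ + (X.x ^ n * v * (ε * c) - X.x ^ n * v * (ε * a) +
        X.x ^ n * v * δ'),
      (X.I * J).add_mem hδ ((X.I * J).add_mem ((X.I * J).sub_mem ((X.I * J).mul_mem_left _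
        (Ideal.mul_mem_mul hεI hc.1)) ((X.I * J).mul_mem_left _
        (Ideal.mul_mem_mul hεI ha.1))) ((X.I * J).mul_mem_left _ hδ')), by
      have h7 : (X.x : X.B) ^ n * c' + (δ + (X.x ^ n * v * (ε * c) - X.x ^ n * v * (ε * a) +
          X.x ^ n * v * δ')) = (X.x ^ (n + 1) * c + δ) - X.x ^ (n + 1) * a := by
        have h8 : c' = v * (c - a - δ') := by
          rw [show c - a - δ' = X.w * c' by rw [h]; ring, ← mul_assoc, mul_comm v, hw, one_mul]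
        rw [h8, hε]
        linear_combination ((X.x : X.B) ^ (n + 1) * c - X.x ^ (n + 1) * a) * hw
      rw [h7]
      exact Submodule.sub_mem _ hb (mul_mem₀ (X.B₀.pow_mem X.x_mem _) ha)⟩
    have h9 : c = (c - X.w * c') + X.w * c' := by ring
    rw [h9]
    exact Submodule.add_mem _ h5 (mul_mem₁ X.w_mem h6)

end gen

/-- D4 and D5 -/
theorem global_functions {J : Ideal X.B} (hJI : J ≤ X.I) (hP : NonNeg J (part₀ J) (part₁ J))
    (hD1 : ∀ f ∈ X.I * J, Dec (part₀ X.I * part₀ J) (part₁ X.I * part₁ J) (J * J) f)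
    (hD3 : ∀ m, ∀ f ∈ J ^ m, Dec (part₀ J ^ m) (part₁ J ^ m) (J ^ (m + 1)) f)
    (loc₀ : ∀ j ∈ J, ∃ ν : ℕ, ∃ δ ∈ X.I * J, (X.x : X.B) ^ ν * j + δ ∈ part₀ J)
    (loc₁ : ∀ j ∈ J, ∃ ν : ℕ, ∃ δ ∈ X.I * J, (X.w : X.B) ^ ν * j + δ ∈ part₁ J)
    (n₀ : IsNoetherianRing X.B₀) (n₁ : IsNoetherianRing X.B₁)
    (c₀ : IsAdicComplete (X.I.comap (algebraMap X.B₀ X.B)) X.B₀)
    (c₁ : IsAdicComplete (X.I.comap (algebraMap X.B₁ X.B)) X.B₁)
    (haus : ∀ b : X.B, (∀ m : ℕ, b ∈ X.I ^ m) → b = 0) :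
    ∃ s : Finset X.B, (∀ h ∈ s, h ∈ J ∧ h ∈ X.B₀ ∧ h ∈ X.B₁) ∧
      part₀ J = Submodule.span X.B₀ (s : Set X.B) ∧ part₁ J = Submodule.span X.B₁ (s : Set X.B) ∧
      ∀ b : X.B, ∃ b₀ ∈ X.B₀, ∃ b₁ ∈ X.B₁, b = b₀ + b₁ := by
  have fg₀ : (part₀ J).FG := prt_fg n₀ J
  have fg₁ : (part₁ J).FG := prt_fg n₁ J
  have hIJ : ∀ f ∈ X.I * J, ∃ a ∈ part₀ X.I * part₀ J, ∃ c ∈ part₁ X.I * part₁ J, f = a + c :=
    fun f hf => mul_eq_add hJI haus c₀ c₁ hD3 fg₀ fg₁ hD1 hf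
  have h0 : part₀ J = Submodule.span X.B₀ (glob J) := by
    refine le_antisymm (nak c₀ fg₀ fun a ha => ?_) (Submodule.span_le.2 fun g hg => ⟨hg.1, hg.2.1⟩)
    obtain ⟨ν, hν⟩ := loc₁ a ha.1
    exact gen₀ hP hIJ ν a ha hν
  have h1 : part₁ J = Submodule.span X.B₁ (glob J) := by
    refine le_antisymm (nak c₁ fg₁ fun a ha => ?_) (Submodule.span_le.2 fun g hg => ⟨hg.1, hg.2.2⟩)
    obtain ⟨ν, hν⟩ := loc₀ a ha.1
    exact gen₁ hP hIJ ν a ha hν
  obtain ⟨s₀, hs₀, hs₀'⟩ := Submodule.fg_span_iff_fg_span_finset_subset _ |>.1 (h0 ▸ fg₀)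
  obtain ⟨s₁, hs₁, hs₁'⟩ := Submodule.fg_span_iff_fg_span_finset_subset _ |>.1 (h1 ▸ fg₁)
  classical
  refine ⟨s₀ ∪ s₁, ?_, ?_, ?_, eq_add hJI haus c₀ c₁ hD3⟩
  · intro h hh
    rcases Finset.mem_union.1 hh with hh | hh
    · exact hs₀ hh
    · exact hs₁ hh
  · refine le_antisymm ?_ (Submodule.span_le.2 fun g hg => ?_)
    · rw [h0, hs₀']
      exact Submodule.span_mono (by simp)
    · rcases Finset.mem_union.1 (Finset.mem_coe.1 hg) with hh | hh
      · exact ⟨(hs₀ hh).1, (hs₀ hh).2.1⟩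
      · exact ⟨(hs₁ hh).1, (hs₁ hh).2.1⟩
  · refine le_antisymm ?_ (Submodule.span_le.2 fun g hg => ?_)
    · rw [h1, hs₁']
      exact Submodule.span_mono (by simp)
    · rcases Finset.mem_union.1 (Finset.mem_coe.1 hg) with hh | hh
      · exact ⟨(hs₀ hh).1, (hs₀ hh).2.2⟩
      · exact ⟨(hs₁ hh).1, (hs₁ hh).2.2⟩

end Pool.Agent.DWC
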